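import Pool.Agent.Y590.AP.Check

/-!
Checked lists (found by a local search) of points of `F_p^d` in a peeling order.
-/

set_option autoImplicit false

namespace Pool.Agent.Y590.AP

/-- a peelable set of 36 points of `F_5^3` -/
def l5 : List ℕ := [
  98, 28, 44, 32, 61, 5, 59, 113, 110, 45, 82, 31, 33, 14, 11, 72, 68, 115, 12, 4, 85, 6, 7, 54,
  67, 89, 86, 119, 103, 77, 0, 66, 47, 64, 41, 58]

lemma chk5 : chk 5 3 l5 [] 0 = true := by decide +kernel

lemma len5 : l5.length = 36 := by decide +kernel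

/-- a peelable set of 85 points of `F_7^3` -/
def l7 : List ℕ := [
  304, 31, 40, 53, 20, 72, 312, 111, 324, 303, 1, 42, 295, 333, 81, 273, 283, 10, 254, 321, 282,
  271, 230, 63, 113, 252, 214, 223, 209, 262, 91, 250, 274, 237, 32, 61, 64, 102, 82, 205, 155,
  245, 84, 196, 264, 3, 23, 246, 290, 211, 43, 220, 184, 284, 44, 175, 331, 340, 266, 215, 200,
  4, 235, 206, 29, 226, 203, 232, 35, 212, 13, 150, 170, 185, 165, 161, 156, 179, 176, 337, 308,
  335, 19, 48, 171]

lemma chk7 : chk 7 3 l7 [] 0 = true := by decide +kernel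

lemma len7 : l7.length = 85 := by decide +kernel

/-- a peelable set of 44 points of `F_11^2` -/
def l11 : List ℕ := [
  100, 58, 107, 104, 103, 65, 61, 57, 25, 11, 32, 29, 15, 97, 47, 19, 93, 22, 83, 18, 108, 28, 1,
  26, 37, 62, 87, 112, 101, 12, 64, 16, 119, 91, 89, 98, 66, 54, 96, 73, 52, 50, 48, 71]

lemma chk11 : chk 11 2 l11 [] 0 = true := by decide +kernel

lemma len11 : l11.length = 44 := by decide +kernel

/-- a peelable set of 60 points of `F_13^2` -/
def l13 : List ℕ := [
  34, 75, 162, 157, 26, 31, 67, 167, 72, 29, 113, 129, 124, 108, 154, 121, 80, 126, 18, 85, 44,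
  88, 59, 146, 159, 13, 105, 165, 119, 160, 92, 37, 138, 39, 70, 100, 32, 133, 27, 168, 118, 65,
  141, 77, 10, 73, 5, 114, 110, 106, 46, 151, 87, 115, 147, 51, 143, 152, 83, 47]

lemma chk13 : chk 13 2 l13 [] 0 = true := by decide +kernel

lemma len13 : l13.length = 60 := by decide +kernel

/-- a peelable set of 97 points of `F_17^2` -/
def l17 : List ℕ := [
  266, 21, 80, 205, 207, 124, 161, 19, 183, 163, 82, 286, 227, 122, 264, 268, 104, 102, 60, 165,
  185, 78, 62, 41, 288, 1, 85, 248, 16, 225, 17, 249, 189, 146, 3, 181, 188, 220, 262, 58, 144,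
  63, 106, 100, 246, 187, 86, 117, 159, 209, 43, 167, 107, 64, 218, 4, 210, 250, 108, 190, 270,
  120, 168, 147, 65, 211, 76, 5, 109, 271, 169, 66, 39, 284, 212, 213, 98, 255, 256, 142, 28,
  140, 27, 26, 25, 201, 70, 245, 69, 68, 71, 243, 130, 129, 15, 172, 14]

lemma chk17 : chk 17 2 l17 [] 0 = true := by decide +kernel

lemma len17 : l17.length = 97 := by decide +kernel

end Pool.Agent.Y590.AP
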