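import Mathlib
import Pool.Agent.H309R2.AP3.Level

/-!
A checker for peelable subsets of `F_p^d`: the points are coded by natural numbers below `p ^ d`
and given in the order of construction.
-/

set_option autoImplicit false

namespace Pool.Agent.Y590.AP

open Finset Pool.Agent.H309R2.AP3

/-- the code of `2 y - u` -/
def refN (p : ℕ) : ℕ → ℕ → ℕ → ℕ
  | 0, _, _ => 0
  | d + 1, y, u => (2 * (y % p) + (p - u % p)) % p + p * refN p d (y / p) (u / p)

/-- the point with code `c` -/
def dec (p d c : ℕ) : Fin d → ZMod p := fun i => ((c / p ^ (i : ℕ) % p : ℕ) : ZMod p)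

/-- `l` lists new points, `done` the old ones, `mask` is the bit set of the old ones. -/
def chk (p d : ℕ) : List ℕ → List ℕ → ℕ → Bool
  | [], _, _ => true
  | y :: t, done, mask =>
    decide (y < p ^ d) && !(Nat.testBit mask y) &&
      done.all (fun u => !(Nat.testBit mask (refN p d y u))) &&
      chk p d t (y :: done) (mask ||| 2 ^ y)

lemma digit_refN (p : ℕ) (hp : 0 < p) (d : ℕ) : ∀ y u i : ℕ, i < d →
    refN p d y u / p ^ i % p = (2 * (y / p ^ i % p) + (p - u / p ^ i % p)) % p := by
  induction d with
  | zero => intro y u i hi; omega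
  | succ d ih =>
    intro y u i hi
    rcases Nat.eq_zero_or_pos i with rfl | h
    · simp only [refN, pow_zero, Nat.div_one]
      rw [Nat.add_mul_mod_self_left, Nat.mod_mod]
    · obtain ⟨j, rfl⟩ : ∃ j, i = j + 1 := ⟨i - 1, by omega⟩
      have h1 : refN p (d + 1) y u / p ^ (j + 1) = refN p d (y / p) (u / p) / p ^ j := by
        rw [pow_succ', ← Nat.div_div_eq_div_mul]
        congr 1
        rw [refN, Nat.add_mul_div_left _ _ hp, Nat.div_eq_of_lt (Nat.mod_lt _ hp), zero_add]
      rw [h1, ih _ _ j (by omega), pow_succ', ← Nat.div_div_eq_div_mul,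
        ← Nat.div_div_eq_div_mul]

lemma refN_lt (p : ℕ) (hp : 0 < p) (d : ℕ) : ∀ y u : ℕ, refN p d y u < p ^ d := by
  induction d with
  | zero => intro y u; simp [refN]
  | succ d ih =>
    intro y u
    have h1 := ih (y / p) (u / p)
    have h2 := Nat.mod_lt (2 * (y % p) + (p - u % p)) hp
    rw [refN, pow_succ']
    calc (2 * (y % p) + (p - u % p)) % p + p * refN p d (y / p) (u / p)
        < p + p * refN p d (y / p) (u / p) := by omega
      _ = p * (refN p d (y / p) (u / p) + 1) := by ring
      _ ≤ p * p ^ d := Nat.mul_le_mul_left _ h1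

lemma code_inj (p : ℕ) (hp : 0 < p) (d : ℕ) : ∀ a b : ℕ, a < p ^ d → b < p ^ d →
    (∀ i < d, a / p ^ i % p = b / p ^ i % p) → a = b := by
  induction d with
  | zero => intro a b ha hb _; simp at ha hb; omega
  | succ d ih =>
    intro a b ha hb h
    have h0 := h 0 (by omega)
    simp only [pow_zero, Nat.div_one] at h0
    have h1 : a / p = b / p := by
      apply ih
      · rw [Nat.div_lt_iff_lt_mul hp, mul_comm, ← pow_succ']; exact ha
      · rw [Nat.div_lt_iff_lt_mul hp, mul_comm, ← pow_succ']; exact hb
      · intro i hi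
        have := h (i + 1) (by omega)
        rwa [pow_succ', ← Nat.div_div_eq_div_mul, ← Nat.div_div_eq_div_mul] at this
    rw [← Nat.div_add_mod a p, ← Nat.div_add_mod b p, h0, h1]

lemma dec_refN (p : ℕ) (hp : 0 < p) (d y u : ℕ) :
    dec p d u + dec p d (refN p d y u) = dec p d y + dec p d y := by
  funext i
  simp only [dec, Pi.add_apply]
  rw [digit_refN p hp d y u i i.2]
  generalize hA : u / p ^ (i : ℕ) % p = A
  generalize y / p ^ (i : ℕ) % p = B
  have h1 : A ≤ p := by rw [← hA]; exact (Nat.mod_lt _ hp).le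
  rw [ZMod.natCast_mod (2 * B + (p - A)) p, Nat.cast_add, Nat.cast_sub h1, ZMod.natCast_self]
  push_cast
  ring

lemma dec_inj (p : ℕ) (hp : 0 < p) (d a b : ℕ) (ha : a < p ^ d) (hb : b < p ^ d)
    (h : dec p d a = dec p d b) : a = b := by
  apply code_inj p hp d a b ha hb
  intro i hi
  have h1 := congrFun h ⟨i, hi⟩
  simp only [dec] at h1
  have h2 := (ZMod.natCast_eq_natCast_iff' _ _ p).1 h1
  rwa [Nat.mod_mod, Nat.mod_mod] at h2

lemma peel_insert {G : Type*} [AddCommGroup G] [DecidableEq G] {S : Finset G} {y : G}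
    (hS : Peel S) (h : ∀ x ∈ S, ∀ z ∈ S, x + z ≠ y + y ∨ x = z) : Peel (insert y S) := by
  intro T hT hne
  by_cases hy : y ∈ T
  · refine ⟨y, hy, fun x hx z hz hxz => ?_⟩
    rcases Finset.mem_insert.1 (hT hx) with rfl | hx'
    · exact (add_left_cancel hxz).symm
    · rcases Finset.mem_insert.1 (hT hz) with rfl | hz'
      · exact add_right_cancel hxz
      · rcases h x hx' z hz' with h1 | h1
        · exact absurd hxz h1
        · exact h1
  · exact hS T (fun x hx => (Finset.mem_insert.1 (hT hx)).resolve_left
      (fun e => hy (e ▸ hx))) hne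

/-- soundness of the checker -/
lemma chk_sound (p d : ℕ) (hp : 0 < p) (l : List ℕ) : ∀ (done : List ℕ) (mask : ℕ)
    (S : Finset (Fin d → ZMod p)), (∀ c, Nat.testBit mask c = true ↔ c ∈ done) →
    (∀ c ∈ done, c < p ^ d) → (∀ x, x ∈ S ↔ ∃ c ∈ done, dec p d c = x) → Peel S →
    chk p d l done mask = true →
    ∃ S' : Finset (Fin d → ZMod p), Peel S' ∧ S'.card = S.card + l.length := by
  classical
  induction l with
  | nil => intro done mask S _ _ _ hS _; exact ⟨S, hS, by simp⟩
  | cons y t ih =>
    intro done mask S hm hlt hmem hS hc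
    rw [chk, Bool.and_eq_true, Bool.and_eq_true, Bool.and_eq_true] at hc
    obtain ⟨⟨⟨h1, h2⟩, h3⟩, h4⟩ := hc
    have h1' : y < p ^ d := of_decide_eq_true h1
    have h2' : y ∉ done := by
      intro hy
      rw [(hm y).2 hy] at h2
      simp at h2
    have h3' : ∀ u ∈ done, refN p d y u ∉ done := by
      intro u hu hr
      have := List.all_eq_true.1 h3 u hu
      rw [(hm _).2 hr] at this
      simp at this
    have hyS : dec p d y ∉ S := by
      intro hy
      obtain ⟨c, hc1, hc2⟩ := (hmem _).1 hy
      have := dec_inj p hp d c y (hlt c hc1) h1' hc2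
      exact h2' (this ▸ hc1)
    obtain ⟨S', hS', hcard⟩ := ih (y :: done) (mask ||| 2 ^ y) (insert (dec p d y) S)
      (by
        intro c
        rw [Nat.testBit_or, Nat.testBit_two_pow, List.mem_cons, Bool.or_eq_true, hm c,
          decide_eq_true_iff]
        constructor
        · rintro (h | h)
          · exact Or.inr h
          · exact Or.inl h.symm
        · rintro (h | h)
          · exact Or.inr h.symm
          · exact Or.inl h)
      (by
        intro c hc
        rcases List.mem_cons.1 hc with rfl | hc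
        · exact h1'
        · exact hlt c hc)
      (by
        intro x
        rw [Finset.mem_insert, hmem x]
        constructor
        · rintro (rfl | ⟨c, hc, rfl⟩)
          · exact ⟨y, List.mem_cons_self, rfl⟩
          · exact ⟨c, List.mem_cons_of_mem _ hc, rfl⟩
        · rintro ⟨c, hc, rfl⟩
          rcases List.mem_cons.1 hc with rfl | hc
          · exact Or.inl rfl
          · exact Or.inr ⟨c, hc, rfl⟩)
      (by
        apply peel_insert hS
        intro x hx z hz
        left
        intro hxz
        obtain ⟨u, hu, rfl⟩ := (hmem x).1 hx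
        obtain ⟨v, hv, rfl⟩ := (hmem z).1 hz
        have e := dec_refN p hp d y u
        rw [← hxz] at e
        have e2 := dec_inj p hp d _ _ (refN_lt p hp d y u) (hlt v hv) (add_left_cancel e)
        exact h3' u hu (e2 ▸ hv))
      h4
    refine ⟨S', hS', ?_⟩
    rw [hcard, Finset.card_insert_of_notMem hyS, List.length_cons]
    omega

/-- A checked list gives a peelable set. -/
theorem peel_of_chk (p d : ℕ) (hp : 0 < p) (l : List ℕ) (h : chk p d l [] 0 = true) :
    ∃ S : Finset (Fin d → ZMod p), Peel S ∧ S.card = l.length := by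
  obtain ⟨S, hS, hc⟩ := chk_sound p d hp l [] 0 ∅ (by simp) (by simp) (by simp) peel_empty h
  exact ⟨S, hS, by simpa using hc⟩

end Pool.Agent.Y590.AP
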